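import Pool.Agent.H332.HT.Defs

/-!
HT-PLG: the shadow is a parallelogram if no chord pair is interior
-/

set_option autoImplicit false

open Set Filter Topology

namespace Pool.Agent.H337.HT

open Pool.Agent.H332.HT

theorem cramer (x c p : V2) : det x c • p = det p c • x + det x p • c := by
  unfold det
  ext
  · show (x.1 * c.2 - x.2 * c.1) * p.1 = (p.1 * c.2 - p.2 * c.1) * x.1 +
      (x.1 * p.2 - x.2 * p.1) * c.1
    ring
  · show (x.1 * c.2 - x.2 * c.1) * p.2 = (p.1 * c.2 - p.2 * c.1) * x.2 +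
      (x.1 * p.2 - x.2 * p.1) * c.2
    ring

/-- both functionals give the bound -/
theorem par_bound {x c p : V2} {f g : V2 →ₗ[ℝ] ℝ} (hD : 0 < det x c) (fx : f x = 1)
    (fc : f c = 1) (gx : g x = 1) (gc : g c = -1) (f1 : f p ≤ 1) (f2 : f (-p) ≤ 1) (g1 : g p ≤ 1)
    (g2 : g (-p) ≤ 1) : |det p c| + |det x p| ≤ det x c := by
  have hf : det x c * f p = det p c + det x p := by
    have h := congrArg f (cramer x c p)
    rw [map_smul, map_add, map_smul, map_smul, fx, fc, smul_eq_mul, smul_eq_mul, smul_eq_mul,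
      mul_one, mul_one] at h
    exact h
  have hg : det x c * g p = det p c - det x p := by
    have h := congrArg g (cramer x c p)
    rw [map_smul, map_add, map_smul, map_smul, gx, gc, smul_eq_mul, smul_eq_mul, smul_eq_mul,
      mul_one, mul_neg, mul_one] at h
    rw [h]
    ring
  rw [map_neg] at f2 g2
  have a1 : det x c * f p ≤ det x c := by nlinarith
  have a2 : -det x c ≤ det x c * f p := by nlinarith
  have a3 : det x c * g p ≤ det x c := by nlinarith
  have a4 : -det x c ≤ det x c * g p := by nlinarith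
  rw [hf] at a1 a2
  rw [hg] at a3 a4
  rcases abs_cases (det p c) with ⟨h1, _⟩ | ⟨h1, _⟩ <;>
  rcases abs_cases (det x p) with ⟨h2, _⟩ | ⟨h2, _⟩ <;> rw [h1, h2] <;> linarith

theorem plg (hP : S_P) (hs : S_supp) (hpar : S_par) : S_plg := by
  intro K hK x hx hxi hb
  obtain ⟨-, hcvx, hneg, h0, -, -, -⟩ := hP K hK
  obtain ⟨q, hq⟩ := hpar K hK
  obtain ⟨a, rfl⟩ := hq.surj x hx hxi
  have hpi := Real.pi_pos
  have hIP : IsOpen (IP K) := isOpen_interior
  have hqc := hq.cont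
  have hc1 : Continuous fun t => (1 / 2 : ℝ) • (q a - q t) := by fun_prop
  have hc2 : Continuous fun t => (1 / 2 : ℝ) • (q a + q t) := by fun_prop
  set E1 : Set ℝ := {t | (1 / 2 : ℝ) • (q a - q t) ∉ IP K} with hE1
  set E2 : Set ℝ := {t | (1 / 2 : ℝ) • (q a + q t) ∉ IP K} with hE2
  have hE1c : IsClosed E1 := (hIP.preimage hc1).isClosed_compl
  have hE2c : IsClosed E2 := (hIP.preimage hc2).isClosed_compl
  have hcov : Ioo a (a + Real.pi) ⊆ E1 ∪ E2 := by
    intro t ht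
    exact hb (q t) (hq.mem t) (hq.nint t) (hq.pos a t ht.1 ht.2)
  have hn2 : (Ioo a (a + Real.pi) ∩ E2).Nonempty := by
    have h1 : {t | (1 / 2 : ℝ) • (q a - q t) ∈ IP K} ∈ 𝓝[>] a := by
      refine mem_nhdsWithin_of_mem_nhds ((hIP.preimage hc1).mem_nhds ?_)
      show (1 / 2 : ℝ) • (q a - q a) ∈ IP K
      rw [sub_self, smul_zero]
      exact h0
    obtain ⟨t, ht1, ht2⟩ := Filter.nonempty_of_mem
      (inter_mem (Ioo_mem_nhdsGT (show a < a + Real.pi by linarith)) h1)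
    refine ⟨t, ht1, ?_⟩
    rcases hcov ht1 with h | h
    · exact absurd ht2 h
    · exact h
  have hn1 : (Ioo a (a + Real.pi) ∩ E1).Nonempty := by
    have h1 : {t | (1 / 2 : ℝ) • (q a + q t) ∈ IP K} ∈ 𝓝[<] (a + Real.pi) := by
      refine mem_nhdsWithin_of_mem_nhds ((hIP.preimage hc2).mem_nhds ?_)
      show (1 / 2 : ℝ) • (q a + q (a + Real.pi)) ∈ IP K
      rw [hq.anti, add_neg_cancel, smul_zero]
      exact h0
    obtain ⟨t, ht1, ht2⟩ := Filter.nonempty_of_mem
      (inter_mem (Ioo_mem_nhdsLT (show a < a + Real.pi by linarith)) h1)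
    refine ⟨t, ht1, ?_⟩
    rcases hcov ht1 with h | h
    · exact h
    · exact absurd ht2 h
  obtain ⟨t, ht, ht1, ht2⟩ := isPreconnected_closed_iff.1 isPreconnected_Ioo E1 E2 hE1c hE2c hcov
    hn1 hn2
  have hD : 0 < det (q a) (q t) := hq.pos a t ht.1 ht.2
  refine ⟨q t, hq.mem t, hq.nint t, hD, fun p hp => ?_⟩
  have m1 : (1 / 2 : ℝ) • (q a + q t) ∈ P K := by
    have h := hcvx (hq.mem a) (hq.mem t) (show (0 : ℝ) ≤ 1 / 2 by norm_num)
      (show (0 : ℝ) ≤ 1 / 2 by norm_num) (by norm_num)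
    rw [← smul_add] at h
    exact h
  have m2 : (1 / 2 : ℝ) • (q a - q t) ∈ P K := by
    have h := hcvx (hq.mem a) (hneg _ (hq.mem t)) (show (0 : ℝ) ≤ 1 / 2 by norm_num)
      (show (0 : ℝ) ≤ 1 / 2 by norm_num) (by norm_num)
    rw [← smul_add, ← sub_eq_add_neg] at h
    exact h
  obtain ⟨f, hf1, hf2, -⟩ := hs K hK _ m1 ht2
  obtain ⟨g, hg1, hg2, -⟩ := hs K hK _ m2 ht1
  rw [map_smul, map_add, smul_eq_mul] at hf1
  rw [map_smul, map_sub, smul_eq_mul] at hg1
  have f1 := hf2 _ (hq.mem a)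
  have f2 := hf2 _ (hq.mem t)
  have g1 := hg2 _ (hq.mem a)
  have g2 := hg2 _ (hneg _ (hq.mem t))
  rw [map_neg] at g2
  exact par_bound hD (by linarith) (by linarith) (by linarith) (by linarith) (hf2 p hp)
    (hf2 _ (hneg p hp)) (hg2 p hp) (hg2 _ (hneg p hp))

end Pool.Agent.H337.HT
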